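import Pool.Agent.Y508.TN.Final
import Pool.Agent.Y508.TN.Cantor

/-!
# Sets all of whose similar copies are null for all measures of small dimension (MP_49e1f6_an)

In ZFC: for every sequence `K 0, K 1, ...` of sets of reals of lower box dimension less than one there
is one set `X` of full outer Lebesgue measure such that every similar copy `a X + t` (all real `a ≠ 0`
and all real `t`) is null for every atomless (`σ`-finite or only `s`-finite) measure concentrated on
the union of the sets `K j`. The middle-thirds Cantor set is such a set, so `X` may be taken null in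
all positions and on all scales for the Cantor measure: the full answer to Q1. Conversely, a
`σ`-finite measure which annihilates all translates of some set of positive outer Lebesgue measure has
no atoms and is singular.

Idea of the proof. Let `X = φ_z(Y)`, where the maps `φ_z` of the binary sequences preserve the uniform
measure and add to the `k`-th block of digits of `y` a word which depends on the first `k` digits of
`z` and of `y`. The blocks grow so fast that the words of all similar copies of `K j` in a block belong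
to few small sets of words, and a random choice of the added words (union bound) shows that, with a
fixed number `r`, no similar copy of `K j` contains `φ_z(y)` for `r` sequences `z` and one `y`, and for
all sequences `y_1, ..., y_r` there are less than `r` sequences `z` for which some similar copy
contains all `φ_z(y_i)`. If some set `Y` of less than continuum many sequences is not null, then
suitable `z` give `X`; otherwise a transfinite recursion gives `X`.
-/

set_option autoImplicit false
set_option linter.all false

open MeasureTheory Set Filter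

namespace Pool.Agent.Results.MP_49e1f6_an.SmallDimension

open Pool.Agent.H339R3.CN (cantorMeasure)

/-- The dyadic intervals `[i / 2 ^ n, (i + 1) / 2 ^ n)` of length `2 ^ (-n)` which meet `K`. -/
def dyadicIntervals (K : Set ℝ) (n : ℕ) : Set ℤ :=
  {i | ∃ x ∈ K, (i : ℝ) / 2 ^ n ≤ x ∧ x < ((i : ℝ) + 1) / 2 ^ n}

/-- The lower box dimension of `K` is less than one: there is `s < 1` such that for infinitely many
`n` the set `K` meets at most `2 ^ (s n)` dyadic intervals of length `2 ^ (-n)`. -/
def LowerBoxDimLtOne (K : Set ℝ) : Prop :=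
  ∃ s : ℝ, s < 1 ∧ ∃ᶠ n : ℕ in atTop,
    (dyadicIntervals K n).Finite ∧ ((dyadicIntervals K n).ncard : ℝ) ≤ (2 : ℝ) ^ (s * n)

/-- `X` has full outer Lebesgue measure: the complement of every measurable set which contains `X` is
null. -/
def FullOuterMeasure (X : Set ℝ) : Prop := ∀ B : Set ℝ, MeasurableSet B → X ⊆ B → volume Bᶜ = 0

/-- Every similar copy `a X + t` is null for `μ` (outer measure). -/
def AllCopiesNull (μ : Measure ℝ) (X : Set ℝ) : Prop :=
  ∀ a t : ℝ, a ≠ 0 → μ ((fun x => a * x + t) '' X) = 0

lemma dyadic_eq (K : Set ℝ) (n : ℕ) : dyadicIntervals K n = Y508.TN.boxes K n := by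
  have hpos : (0 : ℝ) < 2 ^ n := by positivity
  ext i
  constructor
  · rintro ⟨x, hx, h1, h2⟩
    rw [div_le_iff₀ hpos] at h1
    rw [lt_div_iff₀ hpos] at h2
    refine ⟨x, hx, ?_⟩
    show ⌊2 ^ n * x⌋ = i
    rw [Int.floor_eq_iff]
    constructor <;> linarith
  · rintro ⟨x, hx, h⟩
    have h' : ⌊2 ^ n * x⌋ = i := h
    rw [Int.floor_eq_iff] at h'
    refine ⟨x, hx, ?_, ?_⟩
    · rw [div_le_iff₀ hpos]; linarith [h'.1]
    · rw [lt_div_iff₀ hpos]; linarith [h'.2]

lemma low_iff (K : Set ℝ) : LowerBoxDimLtOne K ↔ Y508.TN.Low K := by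
  unfold LowerBoxDimLtOne Y508.TN.Low
  simp only [dyadic_eq]

lemma range_cantorMap : range Pool.Agent.H339R3.CN.cantorMap = cantorSet := by
  rw [cantorSet_eq_zero_two_ofDigits]
  ext x
  constructor
  · rintro ⟨d, rfl⟩
    refine ⟨Pool.Agent.H339R3.CN.tern d, fun i => ?_, (Pool.Agent.H339R3.CN.cantorMap_eq d).symm⟩
    unfold Pool.Agent.H339R3.CN.tern
    split_ifs <;> decide
  · rintro ⟨a, ha, rfl⟩
    refine ⟨fun i => if a i = 0 then 0 else 1, ?_⟩
    rw [Pool.Agent.H339R3.CN.cantorMap_eq]
    congr 1
    funext i
    show (if (if a i = 0 then (0 : Fin 2) else 1) = 0 then (0 : Fin 3) else 2) = a i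
    have h1 : ∀ c : Fin 3, c ≠ 1 →
        (if (if c = 0 then (0 : Fin 2) else 1) = 0 then (0 : Fin 3) else 2) = c := by decide
    exact h1 _ (ha i)

lemma low_cantorSet : LowerBoxDimLtOne cantorSet := by
  rw [low_iff, ← range_cantorMap]
  exact Y508.TN.low_cantor

lemma full_pos {X : Set ℝ} (h : FullOuterMeasure X) : 0 < volume X := by
  rw [pos_iff_ne_zero]
  intro h0
  obtain ⟨B, hB1, hB2, hB3⟩ := exists_measurable_superset_of_null h0
  have h1 := h B hB2 hB1
  have h2 : volume (univ : Set ℝ) ≤ volume B + volume Bᶜ := by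
    rw [← union_compl_self B]
    exact measure_union_le _ _
  rw [hB3, h1, add_zero, Real.volume_univ] at h2
  exact absurd h2 (by simp)

/-- **Theorem.** (1) For every sequence of sets `K j` of reals of lower box dimension less than one
there is a set `X` of full outer Lebesgue measure all of whose similar copies `a X + t`, `a ≠ 0`, are
null for every atomless `s`-finite (for example `σ`-finite) measure concentrated on the union of the
`K j`.
(2) The Cantor set is one of these sets: one set `X` of full outer Lebesgue measure has only similar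
copies which are null for every atomless `s`-finite measure concentrated on the Cantor set.
(3) The full answer to Q1 (no): a set `X` of positive (even full) outer Lebesgue measure all of whose
translates (even all similar copies) are null for the Cantor measure.
(4) Conversely, if a `σ`-finite measure annihilates all translates of some set of positive outer
Lebesgue measure, then it has no atoms and is singular. -/
theorem result :
    (∀ K : ℕ → Set ℝ, (∀ j, LowerBoxDimLtOne (K j)) →
      ∃ X : Set ℝ, FullOuterMeasure X ∧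
        ∀ μ : Measure ℝ, SFinite μ → (∀ x, μ {x} = 0) → μ (⋃ j, K j)ᶜ = 0 → AllCopiesNull μ X) ∧
    (LowerBoxDimLtOne cantorSet ∧ ∃ X : Set ℝ, FullOuterMeasure X ∧
        ∀ μ : Measure ℝ, SFinite μ → (∀ x, μ {x} = 0) → μ cantorSetᶜ = 0 → AllCopiesNull μ X) ∧
    (∃ X : Set ℝ, FullOuterMeasure X ∧ 0 < volume X ∧
      (∀ t : ℝ, cantorMeasure ((fun x => x + t) '' X) = 0) ∧ AllCopiesNull cantorMeasure X) ∧
    (∀ μ : Measure ℝ, SigmaFinite μ →
      (∃ X : Set ℝ, 0 < volume X ∧ ∀ t : ℝ, μ ((fun x => x + t) '' X) = 0) →
      (∀ x, μ {x} = 0) ∧ μ ⟂ₘ (volume : Measure ℝ)) := by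
  have h1 : ∀ K : ℕ → Set ℝ, (∀ j, LowerBoxDimLtOne (K j)) →
      ∃ X : Set ℝ, FullOuterMeasure X ∧
        ∀ μ : Measure ℝ, SFinite μ → (∀ x, μ {x} = 0) → μ (⋃ j, K j)ᶜ = 0 →
          AllCopiesNull μ X := fun K hK => by
    obtain ⟨X, hX1, hX2⟩ := Y508.TN.exists_full_sim K fun j => (low_iff _).1 (hK j)
    exact ⟨X, hX1, fun μ m1 m2 m3 a t ha => hX2 μ m1 m2 m3 a t ha⟩
  have h2 : ∃ X : Set ℝ, FullOuterMeasure X ∧
      ∀ μ : Measure ℝ, SFinite μ → (∀ x, μ {x} = 0) → μ cantorSetᶜ = 0 → AllCopiesNull μ X := by
    obtain ⟨X, hX1, hX2⟩ := h1 (fun _ => cantorSet) fun _ => low_cantorSet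
    refine ⟨X, hX1, fun μ m1 m2 m3 => hX2 μ m1 m2 ?_⟩
    rw [iUnion_const]
    exact m3
  refine ⟨h1, ⟨low_cantorSet, h2⟩, ?_, fun μ _ ⟨X, hX, hμ⟩ => ?_⟩
  · obtain ⟨X, hX1, hX2⟩ := h2
    haveI : IsProbabilityMeasure cantorMeasure :=
      Measure.isProbabilityMeasure_map
        Pool.Agent.H339R3.CN.measurable_cantorMap.aemeasurable
    have h3 : AllCopiesNull cantorMeasure X := hX2 cantorMeasure inferInstance
      Y508.TN.cantor_noatoms (by rw [← range_cantorMap]; exact Y508.TN.cantor_conc)
    refine ⟨X, hX1, full_pos hX1, fun t => ?_, h3⟩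
    have h4 := h3 1 t one_ne_zero
    simpa using h4
  · exact Y508.TN.necessary hX.ne' μ hμ

end Pool.Agent.Results.MP_49e1f6_an.SmallDimension
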